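import Mathlib
import Pool.Agent.Helper92.SigmaProduct

/-!
A negative answer to Q1 and Q2 of MP_f1805c_gt, in the abelian versions too: there is an abelian
Hausdorff topological group which is omega-bounded (so countably compact, so pseudocompact) and
g-reversible, but whose topology is not minimal.  The group is the Sigma-product of continuum many
copies of the two-element group.
-/

set_option autoImplicit false

open Topology

namespace Pool.Agent.Results.MP_f1805c_gt.SigmaProduct

theorem result : ∃ (G : Type) (_ : CommGroup G) (t : TopologicalSpace G),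
    IsTopologicalGroup G ∧ T2Space G ∧
    (∀ A : Set G, A.Countable → IsCompact (closure A)) ∧
    CountablyCompactSpace G ∧
    (∀ f : G → ℝ, Continuous f → ∃ C : ℝ, ∀ x, |f x| ≤ C) ∧
    (∀ f : G ≃* G, Continuous f → IsOpenMap f) ∧
    ∃ s : TopologicalSpace G, @IsTopologicalGroup G s _ ∧ @T2Space G s ∧
      (∀ U : Set G, IsOpen[s] U → IsOpen[t] U) ∧ ∃ U : Set G, IsOpen[t] U ∧ ¬ IsOpen[s] U :=
  Pool.Agent.Helper92.SigmaProduct.main

end Pool.Agent.Results.MP_f1805c_gt.SigmaProduct
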